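import Mathlib
import Pool.Agent.Q46.OstE

/-!
# Additive error in optimal stopping for components on trees (answer to Q1: yes)

An ordering of the `n` vertices is a permutation `σ` of `Fin n`: the vertex arriving at time `i + 1`
is `σ i`.  A stopping algorithm (full information) is a function from orderings to times in
`{1, …, n}` whose value only depends on the vertices seen so far.  We prove that for every tree (in
fact for every connected graph) on `n` vertices no stopping algorithm has an expected number of
components larger than `n / 4 + 33473`.
-/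

namespace Pool.Agent.Results.MP_1fe8eb_co.AdditiveError

/-- the vertices which are active at time `t`, i.e. the first `t` vertices of the ordering `σ` -/
def active {n : ℕ} (σ : Equiv.Perm (Fin n)) (t : ℕ) : Set (Fin n) :=
  {v : Fin n | ∃ i : Fin n, (i : ℕ) < t ∧ σ i = v}

/-- the number of connected components of the subgraph induced on the active vertices -/
noncomputable def CC {n : ℕ} (G : SimpleGraph (Fin n)) (σ : Equiv.Perm (Fin n)) (t : ℕ) : ℕ :=
  Nat.card (G.induce (active σ t)).ConnectedComponent

/-- full information stopping algorithms: the value is a time in `{1, …, n}` and whenever `τ` agrees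
with `σ` up to the stopping time of `σ`, the algorithm stops at the same time on `τ` -/
structure IsStopping {n : ℕ} (alg : Equiv.Perm (Fin n) → ℕ) : Prop where
  pos : ∀ σ, 1 ≤ alg σ
  le : ∀ σ, alg σ ≤ n
  stop : ∀ σ τ : Equiv.Perm (Fin n), (∀ i : Fin n, (i : ℕ) < alg σ → σ i = τ i) → alg τ = alg σ

/-- the expected number of components at the stopping time, for a uniformly random ordering -/
noncomputable def score {n : ℕ} (G : SimpleGraph (Fin n)) (alg : Equiv.Perm (Fin n) → ℕ) : ℝ :=
  (∑ σ : Equiv.Perm (Fin n), (CC G σ (alg σ) : ℝ)) / (n.factorial : ℝ)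

/-- The first conjunct is the statement of Q1 for trees; the second one is the quantitative version
for every connected graph. -/
theorem result :
    (∃ N : ℕ, ∀ (n : ℕ) (G : SimpleGraph (Fin n)), G.IsTree →
      ∀ alg : Equiv.Perm (Fin n) → ℕ, IsStopping alg → score G alg ≤ (1 / 4 : ℝ) * n + N) ∧
    (∀ (n : ℕ) (G : SimpleGraph (Fin n)), G.Connected →
      ∀ alg : Equiv.Perm (Fin n) → ℕ, IsStopping alg →
        score G alg ≤ (1 / 4 : ℝ) * n + 33473) := by
  have key : ∀ (n : ℕ) (G : SimpleGraph (Fin n)), G.Connected →
      ∀ alg : Equiv.Perm (Fin n) → ℕ, IsStopping alg →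
        score G alg ≤ (1 / 4 : ℝ) * n + 33473 := by
    intro n G hG alg ha
    have h1 := Q46.Ost.main G hG alg ha.le ha.stop
    have hfac : (0 : ℝ) < n.factorial := by positivity
    unfold score
    rw [div_le_iff₀ hfac]
    refine le_trans h1 (le_of_eq ?_)
    ring
  refine ⟨⟨33473, fun n G hG alg ha => ?_⟩, key⟩
  have := key n G hG.connected alg ha
  exact_mod_cast this

end Pool.Agent.Results.MP_1fe8eb_co.AdditiveError
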